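import Pool.Agent.Q289.BG.Stm

/-!
# Project BG (helper289), MP_dc1397_gt: job EXT

From the part in the positive orthant to the whole body.
-/

set_option autoImplicit false

namespace Pool.Agent.Q154.BG

open MeasureTheory Set Q289.BG
open Pool.Agent.W695.KH (Eu EV VV)

variable {ι : Type} [Fintype ι]

/-- the sign change as a linear isometry -/
noncomputable def sgL (σ : ι → Bool) : Eu ι →ₗᵢ[ℝ] Eu ι where
  toFun := sg σ
  map_add' x y := by
    ext i
    by_cases h : σ i = true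
    · simp [sg, h]
      ring
    · simp [sg, h]
  map_smul' c x := by
    ext i
    by_cases h : σ i = true
    · simp [sg, h]
    · simp [sg, h]
  norm_map' x := by
    change ‖sg σ x‖ = ‖x‖
    rw [EuclideanSpace.norm_eq, EuclideanSpace.norm_eq]
    congr 1
    refine Finset.sum_congr rfl fun i _ => ?_
    by_cases h : σ i = true
    · simp [sg, h]
    · simp [sg, h]

theorem sgL_apply (σ : ι → Bool) (x : Eu ι) : sgL σ x = sg σ x := rfl

theorem sg_cont (σ : ι → Bool) : Continuous (sg σ : Eu ι → Eu ι) := (sgL σ).continuous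

theorem sg_der (σ : ι → Bool) {f : Eu ι → ℝ} (hf : ContDiff ℝ 1 f) (y : Eu ι) :
    HasFDerivAt (fun y => f (sg σ y)) ((fderiv ℝ f (sg σ y)).comp (sgL σ).toContinuousLinearMap)
      y := by
  have h1 : HasFDerivAt f (fderiv ℝ f (sg σ y)) (sg σ y) :=
    (hf.differentiable (by norm_num) _).hasFDerivAt
  have h2 : HasFDerivAt (sg σ : Eu ι → Eu ι) (sgL σ).toContinuousLinearMap y :=
    (sgL σ).toContinuousLinearMap.hasFDerivAt
  exact h1.comp y h2

theorem sg_smooth (σ : ι → Bool) {f : Eu ι → ℝ} (hf : ContDiff ℝ 1 f) :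
    ContDiff ℝ 1 (fun y => f (sg σ y)) :=
  hf.comp (sgL σ).contDiff

theorem sg_norm (σ : ι → Bool) (f : Eu ι → ℝ) (y : Eu ι) :
    ‖(fderiv ℝ f (sg σ y)).comp (sgL σ).toContinuousLinearMap‖ ≤ ‖fderiv ℝ f (sg σ y)‖ := by
  refine (ContinuousLinearMap.opNorm_comp_le _ _).trans ?_
  have : ‖(sgL σ : Eu ι →ₗᵢ[ℝ] Eu ι).toContinuousLinearMap‖ ≤ 1 :=
    (sgL σ).norm_toContinuousLinearMap_le
  exact mul_le_of_le_one_right (norm_nonneg _) this

open Classical in
theorem grad_sq (l : Eu ι →L[ℝ] ℝ) : ∑ i, l (EuclideanSpace.single i 1) ^ 2 ≤ ‖l‖ ^ 2 := by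
  set g := (InnerProductSpace.toDual ℝ (Eu ι)).symm l with hg
  have h1 : ∀ i, l (EuclideanSpace.single i 1) = g i := by
    intro i
    rw [← InnerProductSpace.toDual_symm_apply (𝕜 := ℝ), ← hg, EuclideanSpace.inner_single_right]
    simp
  have h2 : ‖g‖ = ‖l‖ := by
    rw [hg, LinearIsometryEquiv.norm_map]
  rw [← h2, EuclideanSpace.real_norm_sq_eq]
  exact le_of_eq (Finset.sum_congr rfl fun i _ => by rw [h1])


/-- the mean over the sign changes -/
noncomputable def av (f : Eu ι → ℝ) (y : Eu ι) : ℝ :=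
  open Classical in ((2 : ℝ) ^ Fintype.card ι)⁻¹ * ∑ σ : ι → Bool, f (sg σ y)

theorem av_smooth {f : Eu ι → ℝ} (hf : ContDiff ℝ 1 f) : ContDiff ℝ 1 (av f) := by
  unfold av
  exact contDiff_const.mul (ContDiff.sum fun σ _ => sg_smooth σ hf)

open Classical in
theorem av_der {f : Eu ι → ℝ} (hf : ContDiff ℝ 1 f) (y : Eu ι) :
    HasFDerivAt (av f) (((2 : ℝ) ^ Fintype.card ι)⁻¹ •
      ∑ σ : ι → Bool, (fderiv ℝ f (sg σ y)).comp (sgL σ).toContinuousLinearMap) y := by
  have h := (HasFDerivAt.fun_sum (u := (Finset.univ : Finset (ι → Bool)))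
    (fun σ _ => sg_der σ hf y)).const_mul ((2 : ℝ) ^ Fintype.card ι)⁻¹
  exact h

open Classical in
theorem av_norm {f : Eu ι → ℝ} (hf : ContDiff ℝ 1 f) (y : Eu ι) :
    ‖fderiv ℝ (av f) y‖ ^ 2 ≤
      ((2 : ℝ) ^ Fintype.card ι)⁻¹ * ∑ σ : ι → Bool, ‖fderiv ℝ f (sg σ y)‖ ^ 2 := by
  have hN : (0 : ℝ) < 2 ^ Fintype.card ι := by positivity
  rw [(av_der hf y).fderiv]
  have h1 : ‖((2 : ℝ) ^ Fintype.card ι)⁻¹ •
      ∑ σ : ι → Bool, (fderiv ℝ f (sg σ y)).comp (sgL σ).toContinuousLinearMap‖ ≤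
      ((2 : ℝ) ^ Fintype.card ι)⁻¹ * ∑ σ : ι → Bool, ‖fderiv ℝ f (sg σ y)‖ := by
    rw [norm_smul, Real.norm_of_nonneg (by positivity)]
    refine mul_le_mul_of_nonneg_left ?_ (by positivity)
    exact (norm_sum_le _ _).trans (Finset.sum_le_sum fun σ _ => sg_norm σ f y)
  have h2 : (∑ σ : ι → Bool, ‖fderiv ℝ f (sg σ y)‖) ^ 2 ≤
      (2 : ℝ) ^ Fintype.card ι * ∑ σ : ι → Bool, ‖fderiv ℝ f (sg σ y)‖ ^ 2 := by
    have h3 := sq_sum_le_card_mul_sum_sq (s := (Finset.univ : Finset (ι → Bool)))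
      (f := fun σ => ‖fderiv ℝ f (sg σ y)‖)
    have h4 : ((Finset.univ : Finset (ι → Bool)).card : ℝ) = 2 ^ Fintype.card ι := by
      simp
    rw [h4] at h3
    exact h3
  calc _ ≤ (((2 : ℝ) ^ Fintype.card ι)⁻¹ * ∑ σ : ι → Bool, ‖fderiv ℝ f (sg σ y)‖) ^ 2 :=
        pow_le_pow_left₀ (norm_nonneg _) h1 2
    _ = (((2 : ℝ) ^ Fintype.card ι)⁻¹) ^ 2 * (∑ σ : ι → Bool, ‖fderiv ℝ f (sg σ y)‖) ^ 2 := by
        rw [mul_pow]
    _ ≤ (((2 : ℝ) ^ Fintype.card ι)⁻¹) ^ 2 *
        ((2 : ℝ) ^ Fintype.card ι * ∑ σ : ι → Bool, ‖fderiv ℝ f (sg σ y)‖ ^ 2) :=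
        mul_le_mul_of_nonneg_left h2 (by positivity)
    _ = _ := by
        field_simp

theorem ext (h1 : S_CHV) (h2 : S_DIR) (h3 : S_CUB) : S_EXT := by
  classical
  intro ι _ D hD C hC hPI f hf
  set N : ℝ := 2 ^ Fintype.card ι with hNdef
  have hN : 0 < N := by positivity
  set V : ℝ := (volume D).toReal with hVdef
  have hV : 0 < V := ENNReal.toReal_pos hD.pos.ne' hD.comp.measure_lt_top.ne
  have hfc : Continuous f := hf.continuous
  have hgc : Continuous (fun x => fderiv ℝ f x) := hf.continuous_fderiv (by norm_num)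
  have hint : ∀ g : Eu ι → ℝ, Continuous g → IntegrableOn g D :=
    fun g hg => hg.continuousOn.integrableOn_compact hD.comp
  have hvol : (volume {x : Eu ι | ab x ∈ D}).toReal = N * V := by
    have h := h1 ι D hD (fun _ => 1) continuous_const
    simp only [setIntegral_const, smul_eq_mul, mul_one, Finset.sum_const, Finset.card_univ,
      Fintype.card_fun, Fintype.card_bool, nsmul_eq_mul, Nat.cast_pow, Nat.cast_ofNat] at h
    exact h
  have hE : ∀ g : Eu ι → ℝ, Continuous g → EV {x : Eu ι | ab x ∈ D} g =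
      (∑ σ : ι → Bool, ∫ y in D, g (sg σ y)) / (N * V) := by
    intro g hg
    unfold EV
    rw [hvol, h1 ι D hD g hg]
  -- claim 1
  have c1 : EV D (av f) = (∑ σ : ι → Bool, ∫ y in D, f (sg σ y)) / (N * V) := by
    unfold EV av
    rw [integral_const_mul, integral_finsetSum]
    · rw [← hNdef, ← hVdef]
      field_simp
    · intro σ _
      exact hint _ (hfc.comp (sg_cont σ))
  -- claim 3
  set G : ℝ := ∑ σ : ι → Bool, ∫ y in D, ‖fderiv ℝ f (sg σ y)‖ ^ 2 with hG
  have hcG : ∀ σ : ι → Bool, Continuous fun y => ‖fderiv ℝ f (sg σ y)‖ ^ 2 :=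
    fun σ => ((hgc.comp (sg_cont σ)).norm.pow 2)
  have c3 : ∫ y in D, ‖fderiv ℝ (av f) y‖ ^ 2 ≤ G / N := by
    have h4 : ∫ y in D, ‖fderiv ℝ (av f) y‖ ^ 2 ≤
        ∫ y in D, N⁻¹ * ∑ σ : ι → Bool, ‖fderiv ℝ f (sg σ y)‖ ^ 2 := by
      refine integral_mono_of_nonneg (Filter.Eventually.of_forall fun y => by positivity) ?_
        (Filter.Eventually.of_forall fun y => av_norm hf y)
      exact hint _ (continuous_const.mul (continuous_finsetSum _ fun σ _ => hcG σ))
    rw [integral_const_mul, integral_finsetSum _ fun σ _ => hint _ (hcG σ)] at h4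
    rw [div_eq_inv_mul]
    exact h4
  -- claim 2
  have hcd : ∀ (σ : ι → Bool) (i : ι), Continuous fun y =>
      fderiv ℝ f (sg σ y) (EuclideanSpace.single i 1) ^ 2 := fun σ i =>
    ((hgc.comp (sg_cont σ)).clm_apply continuous_const).pow 2
  have hcf : ∀ (σ τ : ι → Bool), Continuous fun y => (f (sg σ y) - f (sg τ y)) ^ 2 := fun σ τ =>
    ((hfc.comp (sg_cont σ)).sub (hfc.comp (sg_cont τ))).pow 2
  have hcf2 : ∀ σ : ι → Bool, Continuous fun y => f (sg σ y) ^ 2 := fun σ =>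
    (hfc.comp (sg_cont σ)).pow 2
  have hav : Continuous (av f) := (av_smooth hf).continuous
  have c2 : (∑ σ : ι → Bool, ∫ y in D, f (sg σ y) ^ 2) / N - ∫ y in D, av f y ^ 2 ≤
      G / (2 * N) := by
    have h4 : (∑ σ : ι → Bool, ∫ y in D, f (sg σ y) ^ 2) / N - ∫ y in D, av f y ^ 2 =
        ∫ y in D, (N⁻¹ * ∑ σ : ι → Bool, f (sg σ y) ^ 2 - av f y ^ 2) := by
      have hi1 : Integrable (fun y => N⁻¹ * ∑ σ : ι → Bool, f (sg σ y) ^ 2)
          (volume.restrict D) :=
        hint _ (continuous_const.mul (continuous_finsetSum _ fun σ _ => hcf2 σ))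
      have hi2 : Integrable (fun y => av f y ^ 2) (volume.restrict D) := hint _ (hav.pow 2)
      rw [integral_sub hi1 hi2, integral_const_mul,
        integral_finsetSum _ fun σ _ => hint _ (hcf2 σ), div_eq_inv_mul]
    have h5 : ∫ y in D, (N⁻¹ * ∑ σ : ι → Bool, f (sg σ y) ^ 2 - av f y ^ 2) ≤
        ∫ y in D, (4 * N)⁻¹ * ∑ i, ∑ σ : ι → Bool,
          (f (sg σ y) - f (sg (Function.update σ i (!σ i)) y)) ^ 2 := by
      refine integral_mono
        (hint _ ((continuous_const.mul (continuous_finsetSum _ fun σ _ => hcf2 σ)).sub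
          (hav.pow 2)))
        (hint _ (continuous_const.mul (continuous_finsetSum _ fun i _ =>
          continuous_finsetSum _ fun σ _ => hcf σ _))) fun y => ?_
      have h6 := h3 ι (fun σ => f (sg σ y))
      rw [← hNdef] at h6
      change N⁻¹ * ∑ σ : ι → Bool, f (sg σ y) ^ 2 - (N⁻¹ * ∑ σ : ι → Bool, f (sg σ y)) ^ 2 ≤ _
      have h7 : N⁻¹ * ∑ σ : ι → Bool, f (sg σ y) ^ 2 - (N⁻¹ * ∑ σ : ι → Bool, f (sg σ y)) ^ 2 =
          (N⁻¹) ^ 2 * (N * ∑ σ : ι → Bool, f (sg σ y) ^ 2 - (∑ σ : ι → Bool, f (sg σ y)) ^ 2) := by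
        field_simp
      rw [h7]
      refine (mul_le_mul_of_nonneg_left h6 (by positivity)).trans (le_of_eq ?_)
      field_simp
    have h8 : ∫ y in D, (4 * N)⁻¹ * ∑ i, ∑ σ : ι → Bool,
          (f (sg σ y) - f (sg (Function.update σ i (!σ i)) y)) ^ 2 =
        (4 * N)⁻¹ * ∑ i, ∑ σ : ι → Bool, ∫ y in D,
          (f (sg σ y) - f (sg (Function.update σ i (!σ i)) y)) ^ 2 := by
      rw [integral_const_mul, integral_finsetSum _ fun i _ =>
        hint _ (continuous_finsetSum _ fun σ _ => hcf σ _)]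
      congr 1
      refine Finset.sum_congr rfl fun i _ => ?_
      rw [integral_finsetSum _ fun σ _ => hint _ (hcf σ _)]
    have h9 : ∀ i : ι, ∑ σ : ι → Bool, ∫ y in D,
          (f (sg σ y) - f (sg (Function.update σ i (!σ i)) y)) ^ 2 ≤
        2 * ∑ σ : ι → Bool, ∫ y in D, fderiv ℝ f (sg σ y) (EuclideanSpace.single i 1) ^ 2 := by
      intro i
      have h10 : ∑ σ : ι → Bool, ∫ y in D,
          (f (sg σ y) - f (sg (Function.update σ i (!σ i)) y)) ^ 2 ≤
          ∑ σ : ι → Bool, ((∫ y in D, fderiv ℝ f (sg σ y) (EuclideanSpace.single i 1) ^ 2) +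
            ∫ y in D, fderiv ℝ f (sg (Function.update σ i (!σ i)) y)
              (EuclideanSpace.single i 1) ^ 2) := by
        refine Finset.sum_le_sum fun σ _ => ?_
        refine (h2 ι D hD f hf σ i).trans (le_of_eq ?_)
        exact integral_add (hint _ (hcd σ i)) (hint _ (hcd _ i))
      have hinv : Function.Involutive fun σ : ι → Bool => Function.update σ i (!σ i) := by
        intro σ
        funext j
        by_cases h : j = i
        · subst h
          simp
        · simp [Function.update_of_ne h]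
      have h11 : ∑ σ : ι → Bool, ∫ y in D, fderiv ℝ f (sg (Function.update σ i (!σ i)) y)
            (EuclideanSpace.single i 1) ^ 2 =
          ∑ σ : ι → Bool, ∫ y in D, fderiv ℝ f (sg σ y) (EuclideanSpace.single i 1) ^ 2 :=
        Equiv.sum_comp (hinv.toPerm _)
          (fun σ => ∫ y in D, fderiv ℝ f (sg σ y) (EuclideanSpace.single i 1) ^ 2)
      rw [Finset.sum_add_distrib, h11] at h10
      linarith
    have h12 : ∑ i, ∑ σ : ι → Bool, ∫ y in D,
        fderiv ℝ f (sg σ y) (EuclideanSpace.single i 1) ^ 2 ≤ G := by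
      rw [Finset.sum_comm]
      refine Finset.sum_le_sum fun σ _ => ?_
      rw [← integral_finsetSum _ fun i _ => hint _ (hcd σ i)]
      exact integral_mono (hint _ (continuous_finsetSum _ fun i _ => hcd σ i)) (hint _ (hcG σ))
        fun y => grad_sq _
    have h13 : ∑ i, ∑ σ : ι → Bool, ∫ y in D,
          (f (sg σ y) - f (sg (Function.update σ i (!σ i)) y)) ^ 2 ≤ 2 * G := by
      refine (Finset.sum_le_sum fun i _ => h9 i).trans ?_
      rw [← Finset.mul_sum]
      linarith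
    rw [h4]
    refine h5.trans ?_
    rw [h8]
    refine (mul_le_mul_of_nonneg_left h13 (by positivity)).trans (le_of_eq ?_)
    field_simp
    ring
  -- the end
  have hp := hPI (av f) (av_smooth hf)
  have hVV : VV {x : Eu ι | ab x ∈ D} f =
      ((∑ σ : ι → Bool, ∫ y in D, f (sg σ y) ^ 2) / N - ∫ y in D, av f y ^ 2) / V +
        VV D (av f) := by
    unfold VV
    rw [hE (fun x => f x ^ 2) (hfc.pow 2), hE f hfc, c1]
    unfold EV
    rw [← hVdef]
    field_simp
    ring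
  have hEG : EV {x : Eu ι | ab x ∈ D} (fun x => ‖fderiv ℝ f x‖ ^ 2) = G / (N * V) :=
    hE (fun x => ‖fderiv ℝ f x‖ ^ 2) (hgc.norm.pow 2)
  rw [hVV, hEG]
  have h14 : VV D (av f) ≤ C * (G / N / V) := by
    refine hp.trans (mul_le_mul_of_nonneg_left ?_ hC)
    unfold EV
    exact div_le_div_of_nonneg_right c3 hV.le
  have h15 : ((∑ σ : ι → Bool, ∫ y in D, f (sg σ y) ^ 2) / N - ∫ y in D, av f y ^ 2) / V ≤
      G / (2 * N) / V := div_le_div_of_nonneg_right c2 hV.le
  have h16 : (C + 1 / 2) * (G / (N * V)) = G / (2 * N) / V + C * (G / N / V) := by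
    field_simp
    ring
  rw [h16]
  exact add_le_add h15 h14

end Pool.Agent.Q154.BG
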